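import Pool.Agent.H37.CNR.Stmts

/-!
# Board cnr, row WLY: a regular function with independent conjugates modulo Artin-Schreier
-/

set_option autoImplicit false

namespace Pool.CND

open Finset

theorem wly_thm (h1 : S_WLX) (h2 : S_NBX) (h3 : S_FNA) : S_WLY := by
  intro p k L H _ _ _ _ _ _ ρ t P hp hch hcov ht
  classical
  have := Fact.mk hp
  have : CharP L p := charP_of_injective_algebraMap (algebraMap k L).injective p
  obtain ⟨n₀, hn₀⟩ := h1 k L H ρ t P hcov ht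
  obtain ⟨ξ, hξr, hξ⟩ := h2 p k L H ρ t hp hch hcov
  have hξ0 : ξ ≠ 0 := by
    rintro rfl
    apply hξ (fun _ => 1) ⟨1, hp.one_lt.ne' ∘ Nat.dvd_one.mp⟩ 0
    simp
  have hρ0 : ∀ (h : H) (x : L), x ≠ 0 → ρ h x ≠ 0 := by
    intro h x hx
    simpa using hx
  -- a bound for the poles of the conjugates of `ξ`
  obtain ⟨n₁, hn₁⟩ : ∃ n₁ : ℕ, ∀ h : H, -(n₁ : ℤ) ≤ P.ord (ρ h ξ) := by
    refine ⟨∑ h : H, (P.ord (ρ h ξ)).natAbs, fun h => ?_⟩
    have h4 : (P.ord (ρ h ξ)).natAbs ≤ ∑ h : H, (P.ord (ρ h ξ)).natAbs :=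
      Finset.single_le_sum (f := fun h => (P.ord (ρ h ξ)).natAbs) (fun _ _ => Nat.zero_le _)
        (Finset.mem_univ h)
    omega
  refine ⟨max n₀ (n₁ + 1), fun n hn => ?_⟩
  obtain ⟨ℓ₀, hℓ0, hℓr, hℓo, hℓh⟩ := hn₀ n (le_trans (le_max_left _ _) hn)
  have hn1 : n₁ + 1 ≤ n := le_trans (le_max_right _ _) hn
  -- the bad values
  let Bad : (H → ZMod p) → Set k := fun b =>
    {α : k | ∃ w : L, w ^ p - w = ∑ u : H, (((b u).val : ℕ) : L) * ρ u (ℓ₀ + α • ξ)}
  have hfin : ∀ b : H → ZMod p, b ≠ 0 → (Bad b).Finite := by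
    intro b hb
    obtain ⟨u, hu⟩ := Function.ne_iff.mp hb
    have hu' : ¬ p ∣ (b u).val := by
      intro hd
      have h5 := Nat.eq_zero_of_dvd_of_lt hd (ZMod.val_lt (b u))
      exact hu ((ZMod.val_eq_zero (b u)).mp h5)
    set ζ : L := ∑ u : H, (((b u).val : ℕ) : L) * ρ u ξ with hζ
    have hζc : ∀ c : k, ζ ≠ algebraMap k L c := fun c =>
      hξ (fun u => (b u).val) ⟨u, hu'⟩ c
    have hF := h3 p k L H ρ t ζ hp hch hcov hζc
    rcases Set.eq_empty_or_nonempty (Bad b) with he | ⟨α₀, w₀, hw₀⟩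
    · rw [he]
      exact Set.finite_empty
    · refine (hF.image (fun β => α₀ + β)).subset ?_
      rintro α ⟨w, hw⟩
      refine ⟨α - α₀, ⟨w - w₀, ?_⟩, by ring⟩
      have h6 : (w - w₀) ^ p = w ^ p - w₀ ^ p := sub_pow_char w w₀
      have h7 : ∀ β : k, ∑ u : H, (((b u).val : ℕ) : L) * ρ u (ℓ₀ + β • ξ) =
          ∑ u : H, (((b u).val : ℕ) : L) * ρ u ℓ₀ + β • ζ := by
        intro β
        rw [hζ, Finset.smul_sum, ← Finset.sum_add_distrib]
        refine Finset.sum_congr rfl fun u _ => ?_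
        rw [map_add, map_smul, mul_add, mul_smul_comm]
      rw [h7] at hw hw₀
      rw [h6, sub_smul]
      linear_combination hw - hw₀
  obtain ⟨α, hα⟩ : ∃ α : k, ∀ b : H → ZMod p, b ≠ 0 → α ∉ Bad b := by
    have h8 : (⋃ b ∈ {b : H → ZMod p | b ≠ 0}, Bad b).Finite := by
      apply Set.Finite.biUnion (Set.toFinite _)
      intro b hb
      exact hfin b hb
    have : Infinite k := IsAlgClosed.instInfinite
    obtain ⟨α, hα⟩ := h8.exists_notMem
    refine ⟨α, fun b hb hmem => hα ?_⟩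
    simp only [Set.mem_iUnion]
    exact ⟨b, hb, hmem⟩
  -- the terms with `ξ`
  have hge : ∀ h : H, P.Ge (ρ h (α • ξ)) (-(n : ℤ) + 1) := by
    intro h
    rw [map_smul, Algebra.smul_def]
    have h9 := P.ge_mul (P.ge_const α) (P.ge_ord (ρ h ξ))
    refine P.ge_mono h9 ?_
    have := hn₁ h
    omega
  have hone : P.Ge (α • ξ) (P.ord ℓ₀ + 1) := by
    have h10 := hge 1
    rw [map_one] at h10
    rw [hℓo]
    exact h10
  obtain ⟨h11, h12⟩ := P.ord_add_of_lt hℓ0 hone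
  refine ⟨ℓ₀ + α • ξ, h11, ?_, by rw [h12, hℓo], ?_, ?_⟩
  · intro Q hQ
    have h13 : Q.Ge (α • ξ) 0 := by
      rw [Algebra.smul_def]
      have := Q.ge_mul (Q.ge_const α) (hξr Q hQ : Q.Ge ξ 0)
      rwa [add_zero] at this
    exact Q.ge_add (hℓr Q hQ : Q.Ge ℓ₀ 0) h13
  · intro h hh
    have h14 : P.Ge (ρ h ℓ₀) (-(n : ℤ) + 1) := Or.inr (by have := hℓh h hh; omega)
    have h15 : P.Ge (ρ h (ℓ₀ + α • ξ)) (-(n : ℤ) + 1) := by
      rw [map_add]
      exact P.ge_add h14 (hge h)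
    have h16 := h15.resolve_left (hρ0 h _ h11)
    omega
  · intro a ⟨u, hu⟩ w hw
    refine hα (fun u => (a u : ZMod p)) ?_ ⟨w, ?_⟩
    · intro h0
      apply hu
      exact (ZMod.natCast_eq_zero_iff (a u) p).mp (congrFun h0 u)
    · rw [hw]
      refine Finset.sum_congr rfl fun u _ => ?_
      rw [ZMod.val_natCast, ← CharP.cast_eq_mod L p (a u)]

end Pool.CND
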